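import Mathlib

set_option autoImplicit false
set_option maxHeartbeats 400000

open CategoryTheory TensorProduct

namespace Pool.Agent.Results.MP_52d248_al.CondFlat

/-- `(L, η)` is a localization functor on groups: `L η_G` and `η_{LG}` are equal isomorphisms. -/
def IsLocalizationFunctor (L : GrpCat.{0} ⥤ GrpCat.{0}) (η : 𝟭 GrpCat.{0} ⟶ L) : Prop :=
  ∀ G, IsIso (η.app (L.obj G)) ∧ L.map (η.app G) = η.app (L.obj G)

/-- every `η_G` is surjective. -/
def IsEpireflection (L : GrpCat.{0} ⥤ GrpCat.{0}) (η : 𝟭 GrpCat.{0} ⟶ L) : Prop :=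
  ∀ G, Function.Surjective (η.app G).hom

/-- `1 → N → E → G → 1` is a short exact sequence. -/
def IsExt {N E G : Type} [Group N] [Group E] [Group G] (i : N →* E) (p : E →* G) : Prop :=
  Function.Injective i ∧ Function.Surjective p ∧ i.range = p.ker

/-- `1 → LN → LE → LG → 1` is a short exact sequence. -/
def Flat (L : GrpCat.{0} ⥤ GrpCat.{0}) {N E G : Type} [Group N] [Group E] [Group G]
    (i : N →* E) (p : E →* G) : Prop :=
  IsExt (L.map (GrpCat.ofHom i)).hom (L.map (GrpCat.ofHom p)).hom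

/-- the fibre product `E ×_G H`. -/
def Pull {E G H : Type} [Group E] [Group G] [Group H] (p : E →* G) (f : H →* G) :
    Subgroup (E × H) :=
  (p.comp (MonoidHom.fst E H)).eqLocus (f.comp (MonoidHom.snd E H))

/-- the projection `E ×_G H → H`. -/
def pullSnd {E G H : Type} [Group E] [Group G] [Group H] (p : E →* G) (f : H →* G) :
    Pull p f →* H := (MonoidHom.snd E H).comp (Pull p f).subtype

/-- pulling back an `L`-flat extension along any homomorphism gives an `L`-flat extension; `j` is
the inclusion `n ↦ (i n, 1)` of `N` in the fibre product. -/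
def ConditionallyFlat (L : GrpCat.{0} ⥤ GrpCat.{0}) : Prop :=
  ∀ (N E G H : Type) [Group N] [Group E] [Group G] [Group H] (i : N →* E) (p : E →* G)
    (f : H →* G) (j : N →* Pull p f), (∀ n, (j n).1 = (i n, 1)) → IsExt i p → Flat L i p →
      Flat L j (pullSnd p f)

abbrev Ab (G : Type) [Group G] := Additive (Abelianization G)
abbrev LG (G : Type) [Group G] := Multiplicative (ℚ ⊗[ℤ] Ab G)

noncomputable def am {G H : Type} [Group G] [Group H] (f : G →* H) : Ab G →ₗ[ℤ] Ab H :=
  (MonoidHom.toAdditive (Abelianization.map f)).toIntLinearMap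

noncomputable def Lm {G H : Type} [Group G] [Group H] (f : G →* H) : LG G →* LG H :=
  AddMonoidHom.toMultiplicative (LinearMap.lTensor ℚ (am f)).toAddMonoidHom

theorem am_id (G : Type) [Group G] : am (MonoidHom.id G) = LinearMap.id := by
  rw [am, Abelianization.map_id]; rfl

theorem am_comp {G H K : Type} [Group G] [Group H] [Group K] (f : G →* H) (g : H →* K) :
    am (g.comp f) = am g ∘ₗ am f := by
  rw [am, ← Abelianization.map_comp]; rfl

theorem Lm_comp {G H K : Type} [Group G] [Group H] [Group K] (f : G →* H) (g : H →* K) :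
    Lm (g.comp f) = (Lm g).comp (Lm f) := by
  rw [Lm, am_comp, LinearMap.lTensor_comp]; rfl

noncomputable def L : GrpCat.{0} ⥤ GrpCat.{0} where
  obj G := GrpCat.of (LG G)
  map f := GrpCat.ofHom (Lm f.hom)
  map_id G := by
    apply GrpCat.hom_ext
    show Lm (MonoidHom.id G) = MonoidHom.id _
    rw [Lm, am_id, LinearMap.lTensor_id]; rfl
  map_comp f g := GrpCat.hom_ext (Lm_comp _ _)

noncomputable def et (G : Type) [Group G] : G →* LG G where
  toFun x := Multiplicative.ofAdd (1 ⊗ₜ Additive.ofMul (Abelianization.of x))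
  map_one' := by rw [map_one, ofMul_one, tmul_zero]; rfl
  map_mul' x y := by rw [map_mul, ofMul_mul, tmul_add]; rfl

noncomputable def η : 𝟭 GrpCat.{0} ⟶ L where
  app G := GrpCat.ofHom (et G)
  naturality _ _ _ := rfl

theorem one_tmul {M N : Type} [AddCommGroup M] [Module ℚ M] [AddCommGroup N] (e : M →+ N)
    (q : ℚ) (m : M) : (1 : ℚ) ⊗ₜ[ℤ] e (q • m) = q ⊗ₜ[ℤ] e m := by
  have hd : (q.den : ℚ) ≠ 0 := by exact_mod_cast q.den_nz
  apply smul_right_injective _ hd
  show (q.den : ℚ) • ((1 : ℚ) ⊗ₜ[ℤ] e (q • m)) = (q.den : ℚ) • (q ⊗ₜ[ℤ] e m)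
  rw [Nat.cast_smul_eq_nsmul, ← natCast_zsmul, ← tmul_smul, ← map_zsmul, natCast_zsmul,
    ← Nat.cast_smul_eq_nsmul ℚ, smul_smul, Rat.den_mul_eq_num, Int.cast_smul_eq_zsmul, map_zsmul,
    tmul_smul, smul_tmul', smul_tmul', smul_eq_mul, Rat.den_mul_eq_num]
  simp

noncomputable def toAb (G : Type) [Group G] : (ℚ ⊗[ℤ] Ab G) ≃+ Ab (LG G) :=
  MulEquiv.toAdditiveRight (Abelianization.equivOfComm (H := LG G))

theorem et_bij (G : Type) [Group G] : Function.Bijective (et (LG G)) := by
  let e := toAb G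
  let r : ℚ ⊗[ℤ] Ab (LG G) →ₗ[ℤ] ℚ ⊗[ℤ] Ab G :=
    TensorProduct.lift (LinearMap.mk₂ ℤ (fun q a => q • e.symm a) (fun _ _ _ => add_smul _ _ _)
      (fun _ _ _ => smul_assoc _ _ _) (fun _ _ _ => by rw [map_add, smul_add])
      (fun _ _ _ => by rw [map_zsmul, smul_comm]))
  have h1 : ∀ x : ℚ ⊗[ℤ] Ab G, et (LG G) (Multiplicative.ofAdd x) =
      Multiplicative.ofAdd (1 ⊗ₜ e x) := fun x => rfl
  constructor
  · intro x y h
    have := congrArg (fun z => r (Multiplicative.toAdd z)) h
    have h2 : ∀ x : LG G, r (Multiplicative.toAdd (et (LG G) x)) = x.toAdd := fun x => by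
      show (1 : ℚ) • e.symm (e x.toAdd) = _
      rw [one_smul, AddEquiv.symm_apply_apply]
    simp only [h2] at this
    exact this
  · intro z
    obtain ⟨z, rfl⟩ := Multiplicative.ofAdd.surjective z
    induction z using TensorProduct.induction_on with
    | zero => exact ⟨1, map_one _⟩
    | tmul q a =>
      obtain ⟨m, rfl⟩ := e.surjective a
      exact ⟨Multiplicative.ofAdd (q • m), by
        rw [h1]; exact congrArg _ (one_tmul e.toAddMonoidHom q m)⟩
    | add a b ha hb =>
      obtain ⟨x, hx⟩ := ha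
      obtain ⟨y, hy⟩ := hb
      exact ⟨x * y, by rw [map_mul, hx, hy]; rfl⟩

theorem Lm_et (G : Type) [Group G] : Lm (et G) = et (LG G) := by
  refine MonoidHom.ext fun z => ?_
  obtain ⟨z, rfl⟩ := Multiplicative.ofAdd.surjective z
  induction z using TensorProduct.induction_on with
  | zero => exact (map_one _).trans (map_one _).symm
  | tmul q a =>
    obtain ⟨g, rfl⟩ : ∃ g, a = Additive.ofMul (Abelianization.of g) := by
      obtain ⟨g, hg⟩ := QuotientGroup.mk_surjective (Additive.toMul a)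
      exact ⟨g, hg.symm⟩
    have := one_tmul (toAb G).toAddMonoidHom q
      (1 ⊗ₜ Additive.ofMul (Abelianization.of g))
    rw [smul_tmul', smul_eq_mul, mul_one] at this
    exact congrArg Multiplicative.ofAdd this.symm
  | add a b ha hb => rw [ofAdd_add, map_mul, map_mul, ha, hb]

theorem right_exact {N E G : Type} [Group N] [Group E] [Group G] (i : N →* E) (p : E →* G)
    (hp : Function.Surjective p) (h : i.range = p.ker) :
    Function.Surjective (Lm p) ∧ (Lm i).range = (Lm p).ker := by
  have s1 : Function.Surjective (am p) := by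
    intro a
    obtain ⟨g, hg⟩ := QuotientGroup.mk_surjective (Additive.toMul a)
    obtain ⟨e, rfl⟩ := hp g
    exact ⟨Additive.ofMul (Abelianization.of e), hg⟩
  have s2 : Function.Exact (am i) (am p) := by
    intro a
    obtain ⟨e, rfl⟩ : ∃ g, a = Additive.ofMul (Abelianization.of g) := by
      obtain ⟨g, hg⟩ := QuotientGroup.mk_surjective (Additive.toMul a)
      exact ⟨g, hg.symm⟩
    constructor
    · intro h0
      have h1 : p e ∈ commutator G := by rw [← Abelianization.ker_of]; exact h0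
      rw [commutator_def, ← Subgroup.map_top_of_surjective p hp, ← Subgroup.map_commutator] at h1
      obtain ⟨c, hc, h2⟩ := h1
      have h3 : e * c⁻¹ ∈ i.range := by rw [h, MonoidHom.mem_ker, map_mul, map_inv, h2]; simp
      obtain ⟨n, hn⟩ := h3
      refine ⟨Additive.ofMul (Abelianization.of n), ?_⟩
      show Additive.ofMul (Abelianization.of (i n)) = _
      have h4 : Abelianization.of c = 1 := by
        rw [← MonoidHom.mem_ker, Abelianization.ker_of]; exact hc
      rw [hn, map_mul, map_inv, h4]; simp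
    · rintro ⟨b, hb⟩
      obtain ⟨n, rfl⟩ : ∃ g, b = Additive.ofMul (Abelianization.of g) := by
        obtain ⟨g, hg⟩ := QuotientGroup.mk_surjective (Additive.toMul b)
        exact ⟨g, hg.symm⟩
      rw [← hb]
      show Additive.ofMul (Abelianization.of (p (i n))) = 0
      have : p (i n) = 1 := by rw [← MonoidHom.mem_ker, ← h]; exact ⟨n, rfl⟩
      rw [this]; rfl
  refine ⟨LinearMap.lTensor_surjective ℚ s1, ?_⟩
  ext z
  exact (lTensor_exact ℚ s2 s1 z.toAdd).symm

theorem result : ∃ (L : GrpCat.{0} ⥤ GrpCat.{0}) (η : 𝟭 GrpCat.{0} ⟶ L),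
    IsLocalizationFunctor L η ∧ ConditionallyFlat L ∧ ¬ IsEpireflection L η := by
  refine ⟨L, η, fun G => ⟨?_, GrpCat.hom_ext (Lm_et G)⟩, ?_, fun h => ?_⟩
  · exact (ConcreteCategory.isIso_iff_bijective _).2 (et_bij G)
  · intro N E G H _ _ _ _ i p f j hj hE hF
    have e : ((MonoidHom.fst E H).comp (Pull p f).subtype).comp j = i := by
      ext n; exact congrArg Prod.fst (hj n)
    refine ⟨?_, right_exact j (pullSnd p f) ?_ ?_⟩
    · have h1 : Function.Injective (Lm i) := hF.1
      rw [← e, Lm_comp] at h1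
      exact Function.Injective.of_comp h1
    · intro x
      obtain ⟨y, hy⟩ := hE.2.1 (f x)
      exact ⟨⟨(y, x), hy⟩, rfl⟩
    · ext z
      constructor
      · rintro ⟨n, rfl⟩
        exact congrArg Prod.snd (hj n)
      · intro hz
        have h1 : z.1.2 = 1 := hz
        have h2 : p z.1.1 = f z.1.2 := z.2
        rw [h1, map_one, ← MonoidHom.mem_ker, ← hE.2.2] at h2
        obtain ⟨n, hn⟩ := h2
        exact ⟨n, Subtype.ext ((hj n).trans (Prod.ext hn h1.symm))⟩
  · let e : Ab (Multiplicative ℤ) ≃+ ℤ :=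
      (MulEquiv.toAdditiveRight (Abelianization.equivOfComm (H := Multiplicative ℤ))).symm
    let r : ℚ ⊗[ℤ] Ab (Multiplicative ℤ) →ₗ[ℤ] ℚ :=
      TensorProduct.lift (LinearMap.mk₂ ℤ (fun q a => e a • q) (fun _ _ _ => smul_add _ _ _)
        (fun _ _ _ => smul_comm _ _ _) (fun _ _ _ => by rw [map_add, add_smul])
        (fun _ _ _ => by rw [map_zsmul, smul_assoc]))
    obtain ⟨x, hx⟩ := h (GrpCat.of (Multiplicative ℤ))
      (Multiplicative.ofAdd ((1 / 2 : ℚ) ⊗ₜ e.symm 1))
    have h1 : e (Additive.ofMul (Abelianization.of x)) • (1 : ℚ) = e (e.symm 1) • (1 / 2 : ℚ) :=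
      congrArg (fun z => r (Multiplicative.toAdd z)) hx
    simp only [AddEquiv.apply_symm_apply, zsmul_eq_mul, mul_one, Int.cast_one, one_mul] at h1
    generalize e (Additive.ofMul (Abelianization.of x)) = k at h1
    have h2 : ((2 * k : ℤ) : ℚ) = (1 : ℤ) := by push_cast; linarith
    have h3 : 2 * k = 1 := by exact_mod_cast h2
    omega

end Pool.Agent.Results.MP_52d248_al.CondFlat
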